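import Mathlib
import Pool.Agent.Helper98.HamDefs
import Pool.Agent.Helper98.HamMain

open Filter Topology
open Pool.Agent.Helper98.Ham

namespace Pool.Agent.Results.MP_42d591_pr.SharpHamiltonicity

/-- **Answer to Q1 (yes).** For `0 < α < 1/2` and `d(n)/n → α` there is a function `p` that is both
a sharp `d`-threshold for Hamiltonicity and a sharp threshold for the property that `G(n - d, p)`
contains a linear forest with `n - 2 d` edges. -/
theorem result (α : ℝ) (hα0 : 0 < α) (hα1 : α < 1 / 2) (d : ℕ → ℕ)
    (hd : Tendsto (fun n => (d n : ℝ) / n) atTop (𝓝 α)) :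
    ∃ p : ℕ → ℝ, IsSharpDThreshold d (fun _ => {G | G.IsHamiltonian}) p ∧
      IsSharpThreshold (fun n => n - d n) (fun n => {G | HasLinearForest G (n - 2 * d n)}) p :=
  Pool.Agent.Helper98.Ham.main hα0 hα1 hd

end Pool.Agent.Results.MP_42d591_pr.SharpHamiltonicity
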